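import Mathlib

/-!
# A nonconvex left Bregman Chebyshev set for a Legendre function that is not supercoercive

For `f x = √(1 + ‖x‖²)` on `ℝ²`, the Bregman distance is `(cosh d - 1) / √(1 + ‖y‖²)` with `d` the
hyperbolic distance of the lifts of `x`, `y` to the hyperboloid.  The set
`{x : 5 x₀ ≤ 3 √(1 + ‖x‖²)}` is a closed hyperbolic half plane, hence left Chebyshev, but it is
not convex.
-/

namespace Pool.Agent.Results.MP_bd7f44_an.NonconvexLeftChebyshev

open Set

/-- Euclidean space of dimension `n`. -/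
abbrev E (n : ℕ) := EuclideanSpace ℝ (Fin n)

/-- Effective domain. -/
def dom {n : ℕ} (f : E n → EReal) : Set (E n) := {x | f x < ⊤}

/-- Domain of the subdifferential: points of the effective domain at which `f` has a
subgradient. -/
def subdiffDom {n : ℕ} (f : E n → EReal) : Set (E n) :=
  {x | x ∈ dom f ∧ ∃ v : E n, ∀ z, f x + ((inner ℝ v (z - x) : ℝ) : EReal) ≤ f z}

/-- The gradient of (the real-valued version of) `f`. -/
noncomputable def grad {n : ℕ} (f : E n → EReal) (y : E n) : E n :=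
  gradient (fun z => (f z).toReal) y

/-- Legendre functions: proper, lower semicontinuous, convex, essentially smooth and essentially
strictly convex. -/
structure IsLegendre {n : ℕ} (f : E n → EReal) : Prop where
  ne_bot : ∀ x, f x ≠ ⊥
  dom_nonempty : (dom f).Nonempty
  lsc : LowerSemicontinuous f
  convex : Convex ℝ {p : E n × ℝ | f p.1 ≤ (p.2 : EReal)}
  interior_nonempty : (interior (dom f)).Nonempty
  differentiable : ∀ x ∈ interior (dom f), DifferentiableAt ℝ (fun z => (f z).toReal) x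
  steep : ∀ (x : E n) (u : ℕ → E n), x ∈ frontier (dom f) → (∀ k, u k ∈ interior (dom f)) →
    Filter.Tendsto u Filter.atTop (nhds x) →
    Filter.Tendsto (fun k => ‖grad f (u k)‖) Filter.atTop Filter.atTop
  strictConvex : ∀ K : Set (E n), Convex ℝ K → K ⊆ subdiffDom f →
    StrictConvexOn ℝ K (fun z => (f z).toReal)

/-- Supercoercivity: `f x / ‖x‖ → ∞` as `‖x‖ → ∞`. -/
def Supercoercive {n : ℕ} (f : E n → EReal) : Prop :=
  ∀ M : ℝ, ∃ R : ℝ, ∀ x : E n, R ≤ ‖x‖ → ((M * ‖x‖ : ℝ) : EReal) ≤ f x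

/-- The Bregman distance `D(x, y) = f x - f y - ⟨∇ f y, x - y⟩` (equal to `⊤` for `x` outside the
effective domain), used for `y` in the interior of the effective domain. -/
noncomputable def D {n : ℕ} (f : E n → EReal) (x y : E n) : EReal :=
  f x - f y - ((inner ℝ (grad f y) (x - y) : ℝ) : EReal)

/-- Left Bregman projection of `y` onto `C`. -/
def leftProj {n : ℕ} (f : E n → EReal) (C : Set (E n)) (y : E n) : Set (E n) :=
  {x | x ∈ C ∧ ∀ z ∈ C, D f x y ≤ D f z y}

/-- `C` is a nonempty subset of `U = int dom f` and the left Bregman projection onto `C` of every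
point of `U` is a singleton. -/
def LeftChebyshev {n : ℕ} (f : E n → EReal) (C : Set (E n)) : Prop :=
  C.Nonempty ∧ C ⊆ interior (dom f) ∧ ∀ y ∈ interior (dom f), ∃! x, x ∈ leftProj f C y

/-! ### The example -/

/-- `√(1 + ‖x‖²)`. -/
noncomputable def g (x : E 2) : ℝ := Real.sqrt (1 + ‖x‖ ^ 2)

/-- The Legendre function of the example. -/
noncomputable def F (x : E 2) : EReal := ((g x : ℝ) : EReal)

/-- The nonconvex set. -/
def C0 : Set (E 2) := {x | 5 * x 0 ≤ 3 * g x}

lemma g_pos (x : E 2) : 0 < g x := Real.sqrt_pos.mpr (by positivity)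

lemma g_sq (x : E 2) : g x ^ 2 = 1 + ‖x‖ ^ 2 := Real.sq_sqrt (by positivity)

lemma norm_sq2 (x : E 2) : ‖x‖ ^ 2 = x 0 ^ 2 + x 1 ^ 2 := by
  rw [EuclideanSpace.real_norm_sq_eq, Fin.sum_univ_two]

lemma g_sq' (x : E 2) : g x ^ 2 = 1 + x 0 ^ 2 + x 1 ^ 2 := by
  rw [g_sq, norm_sq2]; ring

lemma inner2 (x y : E 2) : (inner ℝ x y : ℝ) = x 0 * y 0 + x 1 * y 1 := by
  simp [PiLp.inner_apply, Fin.sum_univ_two, mul_comm]

/-- Reversed Cauchy-Schwarz on the hyperboloid. -/
lemma hyp_ge (x y : E 2) : 1 + (x 0 * y 0 + x 1 * y 1) ≤ g x * g y := by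
  have h1 : (1 + (x 0 * y 0 + x 1 * y 1)) ^ 2 ≤ (g x * g y) ^ 2 := by
    rw [mul_pow, g_sq', g_sq']
    nlinarith [sq_nonneg (x 0 - y 0), sq_nonneg (x 1 - y 1), sq_nonneg (x 0 * y 1 - x 1 * y 0)]
  exact le_of_sq_le_sq h1 (mul_pos (g_pos x) (g_pos y)).le
where
  le_of_sq_le_sq {a b : ℝ} (h : a ^ 2 ≤ b ^ 2) (hb : 0 ≤ b) : a ≤ b := by
    exact le_of_abs_le (by
      have := abs_le_abs_of_sq_le_sq' h
      rwa [abs_of_nonneg hb] at this)
  abs_le_abs_of_sq_le_sq' {a b : ℝ} (h : a ^ 2 ≤ b ^ 2) : |a| ≤ |b| := sq_le_sq.mp h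

lemma hyp_eq (x y : E 2) (h : g x * g y ≤ 1 + (x 0 * y 0 + x 1 * y 1)) : x = y := by
  have h2 := hyp_ge x y
  have h3 : g x * g y = 1 + (x 0 * y 0 + x 1 * y 1) := le_antisymm h h2
  have h4 : (g x * g y) ^ 2 = (1 + (x 0 * y 0 + x 1 * y 1)) ^ 2 := by rw [h3]
  rw [mul_pow, g_sq', g_sq'] at h4
  have h5 : (x 0 - y 0) ^ 2 + (x 1 - y 1) ^ 2 + (x 0 * y 1 - x 1 * y 0) ^ 2 = 0 := by
    nlinarith
  have h6 : (x 0 - y 0) ^ 2 = 0 := by
    nlinarith [sq_nonneg (x 0 - y 0), sq_nonneg (x 1 - y 1), sq_nonneg (x 0 * y 1 - x 1 * y 0)]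
  have h7 : (x 1 - y 1) ^ 2 = 0 := by
    nlinarith [sq_nonneg (x 0 - y 0), sq_nonneg (x 1 - y 1), sq_nonneg (x 0 * y 1 - x 1 * y 0)]
  ext i
  fin_cases i
  · have := pow_eq_zero_iff (two_ne_zero) |>.mp h6
    simp only [Fin.zero_eta]
    linarith
  · have := pow_eq_zero_iff (two_ne_zero) |>.mp h7
    simp only [Fin.mk_one]
    linarith

lemma hasGradientAt_g (y : E 2) : HasGradientAt g ((1 / g y) • y) y := by
  rw [hasGradientAt_iff_hasFDerivAt]
  have h1 : HasFDerivAt (fun x : E 2 => 1 + ‖x‖ ^ 2) (2 • (innerSL ℝ y)) y := by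
    have := (hasStrictFDerivAt_norm_sq y).hasFDerivAt
    exact this.const_add 1
  have h2 := h1.sqrt (by positivity)
  have e : (InnerProductSpace.toDual ℝ (E 2)) ((1 / g y) • y)
      = (1 / (2 * Real.sqrt (1 + ‖y‖ ^ 2))) • (2 • (innerSL ℝ y)) := by
    ext z
    rw [InnerProductSpace.toDual_apply_apply, inner_smul_left]
    unfold g
    simp
    ring
  rw [e]
  exact h2

lemma F_toReal : (fun z => (F z).toReal) = g := by
  funext z
  simp [F]

lemma grad_F (y : E 2) : grad F y = (1 / g y) • y := by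
  unfold grad
  rw [F_toReal]
  exact (hasGradientAt_g y).gradient

lemma dom_F : dom F = univ := by
  ext x
  simp [dom, F, EReal.coe_lt_top]

/-- The real Bregman distance. -/
lemma D_F (x y : E 2) :
    D F x y = (((g x * g y - (x 0 * y 0 + x 1 * y 1) - 1) / g y : ℝ) : EReal) := by
  unfold D
  rw [grad_F]
  unfold F
  rw [← EReal.coe_sub, ← EReal.coe_sub]
  congr 1
  rw [inner_smul_left, inner_sub_right, inner2, inner2]
  have hy := g_pos y
  have h2 := g_sq' y
  simp only [conj_trivial]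
  field_simp
  nlinarith

lemma grad_ineq (x z : E 2) (h : x ≠ z) : g z + inner ℝ ((1 / g z) • z) (x - z) < g x := by
  rw [inner_smul_left, inner_sub_right, inner2, inner2]
  have hz := g_pos z
  have h2 := g_sq' z
  simp only [conj_trivial]
  have h3 : 1 + (x 0 * z 0 + x 1 * z 1) < g x * g z := by
    by_contra hcon
    exact h (hyp_eq x z (not_lt.mp hcon))
  have h4 : g z + 1 / g z * (z 0 * x 0 + z 1 * x 1 - (z 0 * z 0 + z 1 * z 1))
      = (1 + (x 0 * z 0 + x 1 * z 1)) / g z := by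
    field_simp
    nlinarith
  rw [h4, div_lt_iff₀ hz]
  exact h3

lemma strictConvexOn_g : StrictConvexOn ℝ univ g := by
  refine ⟨convex_univ, ?_⟩
  intro x _ y _ hxy a b ha hb hab
  set z := a • x + b • y with hz
  have hxz : x ≠ z := by
    intro h
    apply hxy
    have h1 : x - y = 0 := by
      have h2 : b • (x - y) = 0 := by
        have : b • (x - y) = x - z := by
          rw [hz]
          have ha' : a = 1 - b := by linarith
          rw [ha']
          module
        rw [this, ← h, sub_self]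
      exact (smul_eq_zero.mp h2).resolve_left hb.ne'
    exact sub_eq_zero.mp h1
  have hyz : y ≠ z := by
    intro h
    apply hxy
    have h1 : x - y = 0 := by
      have h2 : a • (x - y) = 0 := by
        have : a • (x - y) = z - y := by
          rw [hz]
          have hb' : b = 1 - a := by linarith
          rw [hb']
          module
        rw [this, ← h, sub_self]
      exact (smul_eq_zero.mp h2).resolve_left ha.ne'
    exact sub_eq_zero.mp h1
  have h1 := grad_ineq x z hxz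
  have h2 := grad_ineq y z hyz
  set v := (1 / g z) • z
  have h3 : a * inner ℝ v (x - z) + b * inner ℝ v (y - z) = 0 := by
    rw [← inner_smul_right, ← inner_smul_right, ← inner_add_right]
    have : a • (x - z) + b • (y - z) = 0 := by
      have h4 : a • (x - z) + b • (y - z) = (a • x + b • y) - (a + b) • z := by module
      rw [h4, hab, one_smul, ← hz, sub_self]
    rw [this, inner_zero_right]
  simp only [smul_eq_mul]
  have h4 := mul_lt_mul_of_pos_left h1 ha
  have h5 := mul_lt_mul_of_pos_left h2 hb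
  have h6 : a * g z + b * g z = g z := by rw [← add_mul, hab, one_mul]
  linarith

lemma continuous_g : Continuous g := by
  unfold g
  fun_prop

lemma legendre_F : IsLegendre F := by
  refine ⟨?_, ?_, ?_, ?_, ?_, ?_, ?_, ?_⟩
  · intro x
    exact EReal.coe_ne_bot _
  · rw [dom_F]
    exact univ_nonempty
  · have : Continuous F := continuous_coe_real_ereal.comp continuous_g
    exact this.lowerSemicontinuous
  · have h := strictConvexOn_g.convexOn.convex_epigraph
    have e : {p : E 2 × ℝ | F p.1 ≤ (p.2 : EReal)} = {p : E 2 × ℝ | p.1 ∈ univ ∧ g p.1 ≤ p.2} := by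
      ext p
      simp [F]
    rw [e]
    exact h
  · rw [dom_F, interior_univ]
    exact univ_nonempty
  · intro x _
    rw [F_toReal]
    exact (hasGradientAt_g x).differentiableAt
  · intro x u hx
    rw [dom_F, frontier_univ] at hx
    exact absurd hx (notMem_empty x)
  · intro K hK _
    rw [F_toReal]
    exact strictConvexOn_g.subset (subset_univ K) hK

lemma not_supercoercive_F : ¬ Supercoercive F := by
  intro h
  obtain ⟨R, hR⟩ := h 2
  set t : ℝ := max R 1 with ht
  have ht1 : 1 ≤ t := le_max_right _ _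
  have hx : ‖(!₂[t, 0] : E 2)‖ = t := by
    have h1 : ‖(!₂[t, 0] : E 2)‖ ^ 2 = t ^ 2 := by
      rw [norm_sq2]; simp
    have h2 : 0 ≤ ‖(!₂[t, 0] : E 2)‖ := norm_nonneg _
    nlinarith
  have h3 := hR (!₂[t, 0] : E 2) (by rw [hx]; exact le_max_left _ _)
  rw [hx] at h3
  have h4 : 2 * t ≤ g (!₂[t, 0] : E 2) := by
    have h5 : ((2 * t : ℝ) : EReal) ≤ ((g (!₂[t, 0] : E 2) : ℝ) : EReal) := h3
    exact EReal.coe_le_coe_iff.mp h5
  have h6 := g_sq (!₂[t, 0] : E 2)
  rw [hx] at h6
  nlinarith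

/-- Comparison of Bregman distances through the hyperbolic quantity. -/
lemma D_le_iff (x z y : E 2) : D F x y ≤ D F z y ↔
    g x * g y - (x 0 * y 0 + x 1 * y 1) ≤ g z * g y - (z 0 * y 0 + z 1 * y 1) := by
  rw [D_F, D_F, EReal.coe_le_coe_iff, div_le_div_iff_of_pos_right (g_pos y)]
  constructor <;> intro h <;> linarith

/-- The hyperbolic projection onto the half plane. -/
lemma exists_proj (y : E 2) : ∃ p ∈ C0, ∃ s : ℝ, g p * g y - (p 0 * y 0 + p 1 * y 1) = s ∧
    (∀ x ∈ C0, s ≤ g x * g y - (x 0 * y 0 + x 1 * y 1)) ∧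
    ∀ x ∈ C0, g x * g y - (x 0 * y 0 + x 1 * y 1) ≤ s → x = p := by
  by_cases hy : y ∈ C0
  · refine ⟨y, hy, 1, ?_, ?_, ?_⟩
    · nlinarith [g_sq' y]
    · intro x _
      linarith [hyp_ge x y]
    · intro x _ hx
      exact hyp_eq x y (by linarith)
  · have hy' : 3 * g y < 5 * y 0 := by
      by_contra hcon
      exact hy (not_lt.mp hcon)
    set δ : ℝ := 5 / 4 * y 0 - 3 / 4 * g y with hδ
    have hδ0 : 0 < δ := by rw [hδ]; linarith
    set s : ℝ := Real.sqrt (1 + δ ^ 2) with hs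
    have hs0 : 0 < s := Real.sqrt_pos.mpr (by positivity)
    have hs2 : s ^ 2 = 1 + δ ^ 2 := Real.sq_sqrt (by positivity)
    have hgy := g_pos y
    have hgy2 := g_sq' y
    set p : E 2 := !₂[(y 0 - 5 / 4 * δ) / s, y 1 / s] with hp
    have hp0 : p 0 = (y 0 - 5 / 4 * δ) / s := by simp [hp]
    have hp1 : p 1 = y 1 / s := by simp [hp]
    have hy0 : y 0 < g y := by
      nlinarith [sq_nonneg (y 1)]
    have hgp : g p = (g y - 3 / 4 * δ) / s := by
      have h1 : 0 ≤ (g y - 3 / 4 * δ) / s := by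
        apply div_nonneg _ hs0.le
        rw [hδ]
        linarith
      have h2 : g p ^ 2 = ((g y - 3 / 4 * δ) / s) ^ 2 := by
        rw [g_sq', hp0, hp1]
        field_simp
        rw [hs2]
        have h3 : y 1 ^ 2 = g y ^ 2 - 1 - y 0 ^ 2 := by linarith
        rw [h3, hδ]
        ring
      have h3 := g_pos p
      nlinarith
    have hdec : ∀ x : E 2, g x * g y - (x 0 * y 0 + x 1 * y 1)
        = s * (g x * g p - (x 0 * p 0 + x 1 * p 1)) + δ / 4 * (3 * g x - 5 * x 0) := by
      intro x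
      rw [hgp, hp0, hp1]
      field_simp
      ring
    have hpC : 3 * g p - 5 * p 0 = 0 := by
      rw [hgp, hp0]
      field_simp
      rw [hδ]
      ring
    refine ⟨p, ?_, s, ?_, ?_, ?_⟩
    · change 5 * p 0 ≤ 3 * g p
      linarith
    · rw [hdec p, hpC]
      have := g_sq' p
      have e : g p * g p - (p 0 * p 0 + p 1 * p 1) = 1 := by nlinarith
      rw [e]
      ring
    · intro x hx
      have hx' : 5 * x 0 ≤ 3 * g x := hx
      rw [hdec x]
      have h1 := hyp_ge x p
      have h2 : 0 ≤ δ / 4 * (3 * g x - 5 * x 0) := by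
        apply mul_nonneg (by positivity)
        linarith
      nlinarith
    · intro x hx hle
      have hx' : 5 * x 0 ≤ 3 * g x := hx
      rw [hdec x] at hle
      have h2 : 0 ≤ δ / 4 * (3 * g x - 5 * x 0) := by
        apply mul_nonneg (by positivity)
        linarith
      apply hyp_eq x p
      have h3 : s * (g x * g p - (x 0 * p 0 + x 1 * p 1)) ≤ s * 1 := by linarith
      have h4 := le_of_mul_le_mul_left h3 hs0
      linarith

lemma leftChebyshev_C0 : LeftChebyshev F C0 := by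
  refine ⟨?_, ?_, ?_⟩
  · obtain ⟨p, hp, _⟩ := exists_proj 0
    exact ⟨p, hp⟩
  · rw [dom_F, interior_univ]
    exact subset_univ _
  · intro y _
    obtain ⟨p, hp, s, hs1, hs2, hs3⟩ := exists_proj y
    refine ⟨p, ⟨hp, ?_⟩, ?_⟩
    · intro z hz
      rw [D_le_iff, hs1]
      exact hs2 z hz
    · rintro x ⟨hx, hx2⟩
      have h1 := hx2 p hp
      rw [D_le_iff, hs1] at h1
      exact hs3 x hx h1

lemma not_convex_C0 : ¬ Convex ℝ C0 := by
  intro h
  have ha : (!₂[5 / 4, 4 / 3] : E 2) ∈ C0 := by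
    change 5 * (!₂[5 / 4, 4 / 3] : E 2) 0 ≤ 3 * g (!₂[5 / 4, 4 / 3] : E 2)
    have h1 := g_sq' (!₂[5 / 4, 4 / 3] : E 2)
    have h2 := g_pos (!₂[5 / 4, 4 / 3] : E 2)
    simp at h1 ⊢
    nlinarith
  have hb : (!₂[5 / 4, -(4 / 3)] : E 2) ∈ C0 := by
    change 5 * (!₂[5 / 4, -(4 / 3)] : E 2) 0 ≤ 3 * g (!₂[5 / 4, -(4 / 3)] : E 2)
    have h1 := g_sq' (!₂[5 / 4, -(4 / 3)] : E 2)
    have h2 := g_pos (!₂[5 / 4, -(4 / 3)] : E 2)
    simp at h1 ⊢
    nlinarith
  have hc := h ha hb (show (0:ℝ) ≤ 1 / 2 by norm_num) (show (0:ℝ) ≤ 1 / 2 by norm_num)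
    (by norm_num)
  have e : (1 / 2 : ℝ) • (!₂[5 / 4, 4 / 3] : E 2) + (1 / 2 : ℝ) • (!₂[5 / 4, -(4 / 3)] : E 2)
      = !₂[5 / 4, 0] := by
    ext i
    fin_cases i <;> simp <;> norm_num
  rw [e] at hc
  have hc' : 5 * (!₂[5 / 4, 0] : E 2) 0 ≤ 3 * g (!₂[5 / 4, 0] : E 2) := hc
  have h1 := g_sq' (!₂[5 / 4, 0] : E 2)
  have h2 := g_pos (!₂[5 / 4, 0] : E 2)
  simp at h1 hc'
  nlinarith

/-- **There are a Legendre function on `ℝ²` that is not supercoercive and a left Bregman
Chebyshev set that is not convex (and closed).** -/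
theorem result : ∃ (n : ℕ) (f : E n → EReal) (C : Set (E n)), 1 ≤ n ∧ IsLegendre f ∧
    ¬ Supercoercive f ∧ LeftChebyshev f C ∧ IsClosed C ∧ ¬ Convex ℝ C := by
  refine ⟨2, F, C0, by norm_num, legendre_F, not_supercoercive_F, leftChebyshev_C0, ?_,
    not_convex_C0⟩
  apply isClosed_le
  · fun_prop
  · exact continuous_const.mul continuous_g

end Pool.Agent.Results.MP_bd7f44_an.NonconvexLeftChebyshev
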